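import Pool.Agent.Helper63.UC.Fields

/-!
# Coloured symmetric designs from affine resolvable designs
-/

set_option autoImplicit false

namespace Pool.Agent.Results.MP_9fbb3c_co.AffineResolvable

open Finset Pool.Agent.Helper63.UC

/-- Every affine resolvable design gives a coloured symmetric design, and a second one if the number
of its parallel classes is a prime power. In particular the McFarland parameters are coloured. -/
theorem result :
    (∀ (Λ E : Type) [Fintype Λ] [Fintype E] (q μ l0 : ℕ) (π : Λ → E → Fin q),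
      1 ≤ q → 1 ≤ μ → 1 ≤ l0 → IsAffineResolvable q μ l0 π →
      Coloured ((q * l0 + 2) * (q ^ 2 * μ)) ((q * l0 + 1) * (q * μ)) (q * l0 + 2) ∧
      (IsPrimePow (q * l0 + 1) →
        Coloured (((q * l0 + 1) ^ 2 + 1) * ((q * l0 + 2) * (q ^ 2 * μ)))
          ((q * l0 + 1) ^ 2 * ((q * l0 + 1) * (q * μ))) ((q * l0 + 1) ^ 2 + 1))) ∧
    (∀ q n : ℕ, IsPrimePow q → 2 ≤ n →
      Coloured ((∑ i ∈ range n, q ^ i + 1) * q ^ n) ((∑ i ∈ range n, q ^ i) * q ^ (n - 1))
        (∑ i ∈ range n, q ^ i + 1) ∧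
      (IsPrimePow (∑ i ∈ range n, q ^ i) →
        Coloured (((∑ i ∈ range n, q ^ i) ^ 2 + 1) * ((∑ i ∈ range n, q ^ i + 1) * q ^ n))
          ((∑ i ∈ range n, q ^ i) ^ 2 * ((∑ i ∈ range n, q ^ i) * q ^ (n - 1)))
          ((∑ i ∈ range n, q ^ i) ^ 2 + 1))) := by
  refine ⟨?_, fun q n hq hn => coloured_mcfarland hq hn⟩
  intro Λ E _ _ q μ l0 π hq hμ hl0 h
  refine ⟨h.coloured hq hμ hl0, fun hr => ?_⟩
  obtain ⟨F, _, _, _, hF⟩ := exists_field (hr.pow two_ne_zero)
  exact h.coloured_lift (F := F) hq hμ hl0 hF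

end Pool.Agent.Results.MP_9fbb3c_co.AffineResolvable
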