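import Pool.Agent.Helper63.UC.Fields

/-!
# Lifting the coloured symmetric designs with `v = l ^ 2`
-/

set_option autoImplicit false

namespace Pool.Agent.Results.MP_9fbb3c_co.BushLifting

open Finset Pool.Agent.Helper63.UC

/-- A coloured symmetric design with `l = 2 * s` colours and `v = l ^ 2` points, `l - 1` a prime
power, gives one with `(l - 1) ^ 2 + 1` colours. -/
theorem result :
    (∀ s : ℕ, IsPrimePow (2 * s - 1) → Coloured ((2 * s) ^ 2) ((2 * s - 1) * s) (2 * s) →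
      Coloured (((2 * s - 1) ^ 2 + 1) * (2 * s) ^ 2) ((2 * s - 1) ^ 2 * ((2 * s - 1) * s))
        ((2 * s - 1) ^ 2 + 1)) ∧
    (∀ r : ℕ, IsPrimePow r → r % 4 = 3 →
      Coloured ((r ^ 2 + 1) * (r + 1) ^ 2) (r ^ 3 * ((r + 1) / 2)) (r ^ 2 + 1)) ∧
    Coloured 36 15 6 ∧ Coloured 936 375 26 :=
  ⟨fun _ hs h => coloured_bush hs h, fun _ hr h4 => coloured_paley_lift hr h4, coloured36,
    coloured_936⟩

end Pool.Agent.Results.MP_9fbb3c_co.BushLifting
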