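import Mathlib

/-!
# `0`-ULSE colourings of symmetric designs: the parameters `(v, k, ℓ) = (16, 10, 6)`

The triple `(16, 10, 6)` satisfies `v = ℓ(ℓ-2)k / ((ℓ-1)² - k)`, a symmetric `(16, 10, 6)`-BIBD
exists, but no symmetric BIBD with `16` points and block size `10` has a `0`-ULSE `6`-colouring.
-/

set_option autoImplicit false

namespace Pool.Agent.Results.MP_9fbb3c_co.NoSixColouring

/-- The family `B` of subsets of the point set `V` (indexed by `β`, so repeated blocks are allowed)
is a symmetric BIBD with `v` points and block size `k`: there are `v` points and `v` blocks, each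
block has `k` points, `2 ≤ k < v`, and for some `lam > 0` any two distinct points lie in exactly
`lam` blocks. -/
def IsSymmetricBIBD {V β : Type} [Fintype V] [DecidableEq V] [Fintype β] (v k : ℕ)
    (B : β → Finset V) : Prop :=
  2 ≤ k ∧ k < v ∧ Fintype.card V = v ∧ Fintype.card β = v ∧ (∀ b, (B b).card = k) ∧
    ∃ lam : ℕ, 0 < lam ∧ ∀ x y : V, x ≠ y →
      (Finset.univ.filter (fun b : β => x ∈ B b ∧ y ∈ B b)).card = lam

/-- `f` is a `0`-ULSE `l`-colouring of the design `B` with block size `k`: `f` is onto the set
of `l` colours, `l - 1` divides `k`, and for every block exactly one colour does not occur in it,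
while every other colour occurs exactly `k / (l - 1)` times. -/
def IsZeroULSE {V β : Type} [DecidableEq V] (k l : ℕ) (B : β → Finset V) (f : V → Fin l) : Prop :=
  Function.Surjective f ∧ (l - 1) ∣ k ∧
    ∀ b : β, ∃! c : Fin l, ((B b).filter (fun x => f x = c)).card = 0 ∧
      ∀ c' : Fin l, c' ≠ c → ((B b).filter (fun x => f x = c')).card = k / (l - 1)

/-- quadratic form on `Fin 16` regarded as `F₂⁴` -/
def q (x : ℕ) : Bool := (x.testBit 0 && x.testBit 1) != (x.testBit 2 && x.testBit 3)

/-- the symmetric `(16, 10, 6)` design: translates of the zero set of `q` -/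
def blk (a : Fin 16) : Finset (Fin 16) := Finset.univ.filter (fun x => q (x.val ^^^ a.val) = false)

theorem blk_isSymmetricBIBD : IsSymmetricBIBD 16 10 blk := by
  refine ⟨by norm_num, by norm_num, by simp, by simp, by decide +kernel, 6, by norm_num, ?_⟩
  decide +kernel

/-- double counting -/
theorem double_count {V β : Type} [Fintype V] [DecidableEq V] [Fintype β] (B : β → Finset V)
    (x : V) (S : Finset V) :
    ∑ y ∈ S, (Finset.univ.filter (fun b : β => x ∈ B b ∧ y ∈ B b)).card =
      ∑ b ∈ Finset.univ.filter (fun b : β => x ∈ B b), (S.filter (fun y => y ∈ B b)).card := by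
  simp only [Finset.card_filter]
  rw [Finset.sum_comm, Finset.sum_filter]
  apply Finset.sum_congr rfl
  intro b _
  by_cases hx : x ∈ B b
  · simp [hx]
  · simp [hx]

/-- Number of blocks through a point of a symmetric BIBD with 16 points and block size 10 is 10 and
any two points are in 6 blocks. -/
theorem replication {V β : Type} [Fintype V] [DecidableEq V] [Fintype β] (B : β → Finset V)
    (h : IsSymmetricBIBD 16 10 B) :
    (∀ x y : V, x ≠ y → (Finset.univ.filter (fun b : β => x ∈ B b ∧ y ∈ B b)).card = 6) ∧
      ∀ x : V, (Finset.univ.filter (fun b : β => x ∈ B b)).card = 10 := by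
  classical
  obtain ⟨-, -, hV, hβ, hk, lam, hlam, hl⟩ := h
  -- count pairs (y, b) with y ≠ x and x, y ∈ B b
  have hcount : ∀ x : V, 15 * lam = 9 * (Finset.univ.filter (fun b : β => x ∈ B b)).card := by
    intro x
    have h1 : ∑ y ∈ Finset.univ.erase x, (Finset.univ.filter (fun b : β => x ∈ B b ∧ y ∈ B b)).card
        = 15 * lam := by
      rw [Finset.sum_congr rfl (fun y hy => hl x y (Finset.ne_of_mem_erase hy).symm),
        Finset.sum_const, Finset.card_erase_of_mem (Finset.mem_univ x), Finset.card_univ, hV]
      simp
    have h2 : ∑ y ∈ Finset.univ.erase x, (Finset.univ.filter (fun b : β => x ∈ B b ∧ y ∈ B b)).card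
        = ∑ b ∈ Finset.univ.filter (fun b : β => x ∈ B b), ((B b).erase x).card := by
      rw [double_count]
      apply Finset.sum_congr rfl
      intro b _
      congr 1
      ext y
      simp
    have h3 : ∑ b ∈ Finset.univ.filter (fun b : β => x ∈ B b), ((B b).erase x).card =
        9 * (Finset.univ.filter (fun b : β => x ∈ B b)).card := by
      rw [Finset.sum_congr rfl (g := fun _ => 9), Finset.sum_const, smul_eq_mul, mul_comm]
      intro b hb
      rw [Finset.card_erase_of_mem (Finset.mem_filter.mp hb).2, hk]
    rw [← h1, h2, h3]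
  have htot : ∑ x : V, (Finset.univ.filter (fun b : β => x ∈ B b)).card = 160 := by
    have h1 : ∑ x : V, (Finset.univ.filter (fun b : β => x ∈ B b)).card = ∑ b : β, (B b).card := by
      simp only [Finset.card_eq_sum_ones, Finset.sum_filter]
      rw [Finset.sum_comm]
      apply Finset.sum_congr rfl
      intro b _
      rw [← Finset.sum_filter]
      apply Finset.sum_congr
      · ext; simp
      · intros; rfl
    rw [h1, Finset.sum_congr rfl (fun b _ => hk b), Finset.sum_const, Finset.card_univ, hβ]
    rfl
  have hsum : ∑ x : V, 15 * lam = ∑ x : V, 9 * (Finset.univ.filter (fun b : β => x ∈ B b)).card :=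
    Finset.sum_congr rfl fun x _ => hcount x
  rw [← Finset.mul_sum, ← Finset.mul_sum, htot, Finset.sum_const, Finset.card_univ, hV] at hsum
  simp only [smul_eq_mul] at hsum
  have hlam6 : lam = 6 := by omega
  subst hlam6
  refine ⟨hl, fun x => ?_⟩
  have := hcount x
  omega

/-- No symmetric BIBD with 16 points and block size 10 has a `0`-ULSE `6`-colouring. -/
theorem no_colouring {V β : Type} [Fintype V] [DecidableEq V] [Fintype β] (B : β → Finset V)
    (h : IsSymmetricBIBD 16 10 B) (f : V → Fin 6) : ¬ IsZeroULSE 10 6 B f := by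
  classical
  rintro ⟨hsurj, -, hcol⟩
  obtain ⟨hl, hr⟩ := replication B h
  obtain ⟨x, -⟩ := hsurj 0
  -- in every block through `x`, there is exactly one further point of the colour of `x`
  have hone : ∀ b : β, x ∈ B b →
      (((B b).erase x).filter (fun y => f y = f x)).card = 1 := by
    intro b hb
    obtain ⟨c, ⟨hc0, hc⟩, -⟩ := hcol b
    have hne : f x ≠ c := by
      intro hfc
      rw [Finset.card_eq_zero] at hc0
      have : x ∈ (B b).filter (fun y => f y = c) := Finset.mem_filter.mpr ⟨hb, hfc⟩
      rw [hc0] at this
      exact absurd this (Finset.notMem_empty x)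
    have h2 := hc (f x) hne
    have h3 : ((B b).erase x).filter (fun y => f y = f x) =
        ((B b).filter (fun y => f y = f x)).erase x := by
      rw [Finset.filter_erase]
    have h4 : x ∈ (B b).filter (fun y => f y = f x) := Finset.mem_filter.mpr ⟨hb, rfl⟩
    rw [h3, Finset.card_erase_of_mem h4, h2]
  -- double counting
  have h1 : ∑ y ∈ (Finset.univ.erase x).filter (fun y => f y = f x),
      (Finset.univ.filter (fun b : β => x ∈ B b ∧ y ∈ B b)).card =
      6 * ((Finset.univ.erase x).filter (fun y => f y = f x)).card := by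
    rw [Finset.sum_congr rfl (fun y hy => hl x y
      (Finset.ne_of_mem_erase (Finset.mem_filter.mp hy).1).symm), Finset.sum_const, smul_eq_mul,
      mul_comm]
  have h2 : ∑ y ∈ (Finset.univ.erase x).filter (fun y => f y = f x),
      (Finset.univ.filter (fun b : β => x ∈ B b ∧ y ∈ B b)).card =
      ∑ b ∈ Finset.univ.filter (fun b : β => x ∈ B b),
        (((B b).erase x).filter (fun y => f y = f x)).card := by
    rw [double_count]
    apply Finset.sum_congr rfl
    intro b _
    congr 1
    ext y
    simp only [Finset.mem_filter, Finset.mem_erase, Finset.mem_univ, and_true]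
    tauto
  have h3 : ∑ b ∈ Finset.univ.filter (fun b : β => x ∈ B b),
        (((B b).erase x).filter (fun y => f y = f x)).card = 10 := by
    rw [Finset.sum_congr rfl (fun b hb => hone b (Finset.mem_filter.mp hb).2), Finset.sum_const,
      hr x]
    rfl
  omega

/-- The triple `(v, k, ℓ) = (16, 10, 6)` satisfies the equation, a symmetric BIBD with `16` points
and block size `10` exists, and none of them has a `0`-ULSE `6`-colouring. -/
theorem result :
    ∃ v k l : ℕ, 0 < v ∧ 0 < k ∧ 0 < l ∧
      (v : ℚ) = (l : ℚ) * ((l : ℚ) - 2) * k / (((l : ℚ) - 1) ^ 2 - k) ∧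
      (∃ B : Fin v → Finset (Fin v), IsSymmetricBIBD v k B) ∧
      ∀ (V β : Type) [Fintype V] [DecidableEq V] [Fintype β] (B : β → Finset V) (f : V → Fin l),
        IsSymmetricBIBD v k B → ¬ IsZeroULSE k l B f := by
  refine ⟨16, 10, 6, by norm_num, by norm_num, by norm_num, by norm_num,
    ⟨blk, blk_isSymmetricBIBD⟩, ?_⟩
  intro V β _ _ _ B f hB
  exact no_colouring B hB f

end Pool.Agent.Results.MP_9fbb3c_co.NoSixColouring
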