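import Pool.Agent.Helper63.UC.Fields

/-!
# Coloured symmetric designs from spreads of projective spaces
-/

set_option autoImplicit false

namespace Pool.Agent.Results.MP_9fbb3c_co.SpreadColouring

open Finset Pool.Agent.Helper63.UC

/-- The complement of the design of points and hyperplanes of the projective space of dimension
`2 * m - 1` over the field with `q` elements is coloured by a spread. -/
theorem result : ∀ q m : ℕ, IsPrimePow q → 1 ≤ m →
    Coloured (∑ i ∈ range (2 * m), q ^ i) (q ^ (2 * m - 1)) (q ^ m + 1) :=
  fun _ _ hq hm => coloured_spread hq hm

end Pool.Agent.Results.MP_9fbb3c_co.SpreadColouring
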